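import Mathlib
import Pool.Agent.R19.KotHF

/-!
# Randomized King of the Hill on near-uniform tournaments (MP_4400a6_co)

For every `ε ∈ [0, 1/2]` the supremum of the gains two teams can obtain in Randomized King of the
Hill by fixing their match, over all probabilistic tournaments with all match probabilities in
`[1/2 - ε, 1/2 + ε]`, equals `ε/3 + 2ε²/3`.
-/

namespace Pool.Agent.Results.MP_4400a6_co.KingOfTheHill

open Finset Pool.Agent.R19.KotH

/-- The matches among `n` teams: pairs of teams, written with the smaller team first. -/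
abbrev Match (n : ℕ) := {e : Fin n × Fin n // e.1 < e.2}

/-- A deterministic tournament records a winner for each match: `o ⟨(i, j), _⟩ = true` means that
`i` beats `j`, `o ⟨(i, j), _⟩ = false` means that `j` beats `i` (here `i < j`). -/
abbrev Tournament (n : ℕ) := Match n → Bool

/-- `i` beats `j` in the deterministic tournament `o`. -/
def Beats {n : ℕ} (o : Tournament n) (i j : Fin n) : Prop :=
  (∃ h : i < j, o ⟨(i, j), h⟩ = true) ∨ (∃ h : j < i, o ⟨(j, i), h⟩ = false)

open Classical in
/-- The teams of `R` which lose no match of the round in which `h` plays all other teams of `R`. -/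
noncomputable def survivors {n : ℕ} (o : Tournament n) (R : Finset (Fin n)) (h : Fin n) :
    Finset (Fin n) :=
  R.filter (fun y => (y ≠ h → Beats o y h) ∧ (y = h → ∀ z ∈ R, z ≠ h → Beats o h z))

theorem beats_iff {n : ℕ} (o : Tournament n) {i j : Fin n} (hij : i ≠ j) :
    Beats o i j ↔ ¬ Beats o j i := by
  unfold Beats
  rcases lt_or_gt_of_ne hij with h | h
  · have h' : ¬ j < i := not_lt.mpr h.le
    simp [h, h']
  · have h' : ¬ i < j := not_lt.mpr h.le
    simp [h, h']

theorem survivors_card_lt {n : ℕ} (o : Tournament n) {R : Finset (Fin n)} (hR : ¬ R.card ≤ 1)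
    {h : Fin n} (hh : h ∈ R) : (survivors o R h).card < R.card := by
  classical
  by_cases hs : h ∈ survivors o R h
  · have hb : ∀ z ∈ R, z ≠ h → Beats o h z := (Finset.mem_filter.mp hs).2.2 rfl
    have : survivors o R h ⊆ {h} := by
      intro y hy
      rw [Finset.mem_singleton]
      by_contra hne
      have h1 := (Finset.mem_filter.mp hy).2.1 hne
      have h2 := hb y (Finset.mem_filter.mp hy).1 hne
      exact (beats_iff o hne).mp h1 h2
    have := Finset.card_le_card this
    rw [Finset.card_singleton] at this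
    omega
  · have : survivors o R h ⊆ R.erase h := by
      intro y hy
      exact Finset.mem_erase.mpr ⟨fun e => hs (e ▸ hy), (Finset.mem_filter.mp hy).1⟩
    exact lt_of_le_of_lt (Finset.card_le_card this) (Finset.card_erase_lt_of_mem hh)

open Classical in
/-- The probability that team `x` is finally selected by Randomized King of the Hill in the
deterministic tournament `o` when the set of remaining teams is `R`: if at most one team remains it
is selected; otherwise a uniformly random `h ∈ R` plays all other teams of `R` and every team losing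
one of these matches is removed. -/
noncomputable def kingWin {n : ℕ} (o : Tournament n) (R : Finset (Fin n)) (x : Fin n) : ℝ :=
  if hR : R.card ≤ 1 then (if x ∈ R then 1 else 0)
  else (∑ h ∈ R.attach, kingWin o (survivors o R h.1) x) / R.card
termination_by R.card
decreasing_by exact survivors_card_lt o hR h.2

/-- Probabilistic tournaments: `T i j ∈ [0, 1]` is the probability that `i` beats `j`, with
`T i j + T j i = 1`.  (The diagonal is irrelevant.) -/
def IsProb {n : ℕ} (T : Fin n → Fin n → ℝ) : Prop :=
  ∀ i j, i ≠ j → 0 ≤ T i j ∧ T i j + T j i = 1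

/-- `r_x(T)` for Randomized King of the Hill: the matches are drawn independently, `i` beating `j`
with probability `T i j`, and then the rule is run on the resulting deterministic tournament. -/
noncomputable def ruleValue {n : ℕ} (T : Fin n → Fin n → ℝ) (x : Fin n) : ℝ :=
  ∑ o : Tournament n, (∏ e : Match n, if o e then T e.1.1 e.1.2 else T e.1.2 e.1.1) *
    kingWin o univ x

/-- All values of `r_u(T') + r_v(T') - r_u(T) - r_v(T)` where `T` is a probabilistic tournament on
`n ≥ 2` teams with all match probabilities in `[1/2 - ε, 1/2 + ε]` and `T'` is a probabilistic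
tournament `{u, v}`-adjacent to `T`. -/
def gains (ε : ℝ) : Set ℝ :=
  {γ | ∃ n : ℕ, 2 ≤ n ∧ ∃ T T' : Fin n → Fin n → ℝ, ∃ u v : Fin n, u ≠ v ∧
    IsProb T ∧ (∀ i j, i ≠ j → 1 / 2 - ε ≤ T i j ∧ T i j ≤ 1 / 2 + ε) ∧ IsProb T' ∧
    (∀ i j, i ≠ j → ¬ (i = u ∧ j = v) → ¬ (i = v ∧ j = u) → T' i j = T i j) ∧
    γ = ruleValue T' u + ruleValue T' v - ruleValue T u - ruleValue T v}

/-! ### The lazily sampled recursion -/

open Classical in
/-- `0/1` matrix of a deterministic tournament -/
noncomputable def Tof {n : ℕ} (o : Tournament n) (i j : Fin n) : ℝ := if Beats o i j then 1 else 0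

theorem kingWin_empty {n : ℕ} (o : Tournament n) (x : Fin n) : kingWin o ∅ x = 0 := by
  rw [kingWin]; simp

theorem kingWin_singleton {n : ℕ} (o : Tournament n) (h x : Fin n) :
    kingWin o {h} x = if x = h then 1 else 0 := by
  rw [kingWin]; simp

theorem kingWin_eq {n : ℕ} (o : Tournament n) (R : Finset (Fin n)) (x : Fin n) :
    kingWin o R x = f (Tof o) R x := by
  classical
  induction' hk : R.card using Nat.strong_induction_on with k ih generalizing R
  rcases R.eq_empty_or_nonempty with rfl | hne
  · rw [kingWin_empty, f_notMem (by simp)]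
  have h : (R.card : ℝ) ≠ 0 := by exact_mod_cast hne.card_pos.ne'
  have hf := f_eq (Tof o) R x
  by_cases hR : R.card ≤ 1
  · obtain ⟨a, rfl⟩ := Finset.card_eq_one.mp (le_antisymm hR hne.card_pos)
    rw [kingWin_singleton]
    rw [Finset.sum_singleton, Finset.erase_singleton, Ex_empty, Finset.card_singleton] at hf
    simpa using hf.symm
  · apply mul_left_cancel₀ h
    rw [hf, kingWin, dif_neg hR, mul_div_cancel₀ _ h]
    rw [← Finset.sum_attach R (fun h => Ex (fun y => Tof o y h) (R.erase h) _)]
    apply Finset.sum_congr rfl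
    intro ⟨a, ha⟩ _
    have hdet := Ex_det (fun y => Beats o y a) (s := fun y => Tof o y a) (A := R.erase a)
      (fun S => if S = ∅ then (if x = a then 1 else 0) else f (Tof o) S x) (fun y _ => rfl)
    refine Eq.trans ?_ hdet.symm
    have hlt := survivors_card_lt o hR ha
    by_cases hE : (R.erase a).filter (fun y => Beats o y a) = ∅
    · rw [if_pos hE]
      have : survivors o R a = {a} := by
        ext y
        rw [Finset.mem_singleton]
        constructor
        · intro hy
          by_contra hne
          have h1 := (Finset.mem_filter.mp hy).2.1 hne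
          have h2 : y ∈ (R.erase a).filter (fun y => Beats o y a) :=
            Finset.mem_filter.mpr ⟨Finset.mem_erase.mpr ⟨hne, (Finset.mem_filter.mp hy).1⟩, h1⟩
          rw [hE] at h2
          simp at h2
        · rintro rfl
          refine Finset.mem_filter.mpr ⟨ha, fun h => absurd rfl h, fun _ z hz hzy => ?_⟩
          rw [beats_iff o (Ne.symm hzy)]
          intro hb
          have h2 : z ∈ (R.erase y).filter (fun z => Beats o z y) :=
            Finset.mem_filter.mpr ⟨Finset.mem_erase.mpr ⟨hzy, hz⟩, hb⟩
          rw [hE] at h2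
          simp at h2
      simp only [this]
      rw [kingWin_singleton]
    · rw [if_neg hE]
      have : survivors o R a = (R.erase a).filter (fun y => Beats o y a) := by
        obtain ⟨w, hw⟩ := Finset.nonempty_iff_ne_empty.mpr hE
        rw [Finset.mem_filter, Finset.mem_erase] at hw
        ext y
        constructor
        · intro hy
          have hy' := Finset.mem_filter.mp hy
          have hya : y ≠ a := by
            intro e
            have := hy'.2.2 e w hw.1.2 hw.1.1
            exact (beats_iff o hw.1.1).mp hw.2 this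
          exact Finset.mem_filter.mpr ⟨Finset.mem_erase.mpr ⟨hya, hy'.1⟩, hy'.2.1 hya⟩
        · intro hy
          rw [Finset.mem_filter, Finset.mem_erase] at hy
          exact Finset.mem_filter.mpr ⟨hy.1.2, fun _ => hy.2, fun e => absurd e hy.1.1⟩
      simp only [this]
      rw [this] at hlt
      exact ih _ (hk ▸ hlt) _ rfl

/-! ### Expectation of a multi-affine function -/

theorem multiaffine_aux {E : Type*} [DecidableEq E] (F : (E → ℝ) → ℝ)
    (hF : ∀ (t : E → ℝ) (e : E) (a : ℝ), F (Function.update t e a) =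
      a * F (Function.update t e 1) + (1 - a) * F (Function.update t e 0)) (t : E → ℝ)
    (A : Finset E) :
    F t = Ex t A (fun B => F (fun e => if e ∈ A then (if e ∈ B then 1 else 0) else t e)) := by
  induction A using Finset.induction_on with
  | empty => simp
  | insert a A ha ih =>
    rw [Ex_insert ha]
    conv_lhs => rw [ih]
    rw [← Ex_mul, ← Ex_mul, ← Ex_add]
    apply Ex_congr (fun _ _ => rfl)
    intro B hB
    have haB : a ∉ B := fun h => ha (hB h)
    have e0 : (fun e => if e ∈ A then (if e ∈ B then (1 : ℝ) else 0) else t e) =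
        Function.update (fun e => if e ∈ A then (if e ∈ B then (1 : ℝ) else 0) else t e) a (t a) := by
      funext e
      by_cases he : e = a
      · subst he; simp [ha]
      · rw [Function.update_of_ne he]
    have e1 : (fun e => if e ∈ insert a A then (if e ∈ insert a B then (1 : ℝ) else 0) else t e) =
        Function.update (fun e => if e ∈ A then (if e ∈ B then (1 : ℝ) else 0) else t e) a 1 := by
      funext e
      by_cases he : e = a
      · subst he; simp
      · rw [Function.update_of_ne he]; simp [he]
    have e2 : (fun e => if e ∈ insert a A then (if e ∈ B then (1 : ℝ) else 0) else t e) =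
        Function.update (fun e => if e ∈ A then (if e ∈ B then (1 : ℝ) else 0) else t e) a 0 := by
      funext e
      by_cases he : e = a
      · subst he; simp [haB]
      · rw [Function.update_of_ne he]; simp [he]
    rw [e1, e2]
    conv_lhs => rw [e0]
    exact hF _ _ _

theorem multiaffine {E : Type*} [Fintype E] [DecidableEq E] (F : (E → ℝ) → ℝ)
    (hF : ∀ (t : E → ℝ) (e : E) (a : ℝ), F (Function.update t e a) =
      a * F (Function.update t e 1) + (1 - a) * F (Function.update t e 0)) (t : E → ℝ) :
    F t = ∑ o : E → Bool, (∏ e, if o e then t e else 1 - t e) *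
      F (fun e => if o e then 1 else 0) := by
  rw [multiaffine_aux F hF t univ]
  unfold Ex
  symm
  refine Finset.sum_bij (fun (o : E → Bool) _ => univ.filter (fun e => o e = true)) ?_ ?_ ?_ ?_
  · intro o _; simp
  · intro o _ o' _ h
    funext e
    have := Finset.ext_iff.mp h e
    simp only [Finset.mem_filter, Finset.mem_univ, true_and] at this
    by_cases h1 : o e = true
    · rw [h1, this.mp h1]
    · have h2 : ¬ o' e = true := fun h => h1 (this.mpr h)
      rw [Bool.not_eq_true] at h1 h2
      rw [h1, h2]
  · intro B _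
    refine ⟨fun e => decide (e ∈ B), Finset.mem_univ _, ?_⟩
    ext e; simp
  · intro o _
    congr 1
    · rw [Finset.prod_ite]
      congr 1
      apply Finset.prod_congr _ (fun _ _ => rfl)
      ext e; simp
    · congr 1
      funext e
      simp

/-- matrix from the probabilities of the matches -/
noncomputable def toT {n : ℕ} (t : Match n → ℝ) (i j : Fin n) : ℝ :=
  if h : i < j then t ⟨(i, j), h⟩ else if h : j < i then 1 - t ⟨(j, i), h⟩ else 0

theorem toT_update {n : ℕ} (t : Match n → ℝ) (e : Match n) (a : ℝ) :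
    toT (Function.update t e a) = setPair (toT t) e.1.1 e.1.2 a := by
  obtain ⟨⟨p, q⟩, hpq⟩ := e
  have hpq' : p < q := hpq
  funext i j
  simp only [toT, setPair]
  by_cases h1 : i < j
  · have h1' : ¬ j < i := not_lt.mpr h1.le
    by_cases h2 : i = p ∧ j = q
    · obtain ⟨rfl, rfl⟩ := h2
      simp [h1]
    · have h3 : ¬ (i = q ∧ j = p) := by
        rintro ⟨rfl, rfl⟩; exact absurd h1 (not_lt.mpr hpq'.le)
      have h4 : (⟨(i, j), h1⟩ : Match n) ≠ ⟨(p, q), hpq⟩ := by
        intro h; rw [Subtype.mk.injEq, Prod.mk.injEq] at h; exact h2 h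
      rw [dif_pos h1, dif_pos h1, if_neg h2, if_neg h3, Function.update_of_ne h4]
  · by_cases h2 : j < i
    · by_cases h3 : i = q ∧ j = p
      · obtain ⟨rfl, rfl⟩ := h3
        have h4 : ¬ (i = j ∧ j = i) := by rintro ⟨h, _⟩; exact absurd h2 (by rw [h]; exact lt_irrefl _)
        rw [dif_neg h1, dif_pos h2, if_neg h4, if_pos ⟨rfl, rfl⟩]
        simp
      · have h4 : ¬ (i = p ∧ j = q) := by
          rintro ⟨rfl, rfl⟩; exact absurd hpq' h1
        have h5 : (⟨(j, i), h2⟩ : Match n) ≠ ⟨(p, q), hpq⟩ := by
          intro h; rw [Subtype.mk.injEq, Prod.mk.injEq] at h; exact h3 ⟨h.2, h.1⟩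
        rw [dif_neg h1, dif_pos h2, dif_neg h1, dif_pos h2, if_neg h4, if_neg h3,
          Function.update_of_ne h5]
    · have hij : i = j := le_antisymm (not_lt.mp h2) (not_lt.mp h1)
      subst hij
      have h3 : ¬ (i = p ∧ i = q) := by
        rintro ⟨rfl, h⟩; exact absurd hpq' (by rw [← h]; exact lt_irrefl _)
      have h4 : ¬ (i = q ∧ i = p) := fun h => h3 ⟨h.2, h.1⟩
      rw [dif_neg h1, dif_neg h1, if_neg h3, if_neg h4]
      simp

theorem ruleValue_eq {n : ℕ} {T : Fin n → Fin n → ℝ} (hT : IsProb T) (x : Fin n) :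
    ruleValue T x = f T univ x := by
  classical
  set t : Match n → ℝ := fun e => T e.1.1 e.1.2 with ht
  have h1 : f T univ x = f (toT t) univ x := by
    apply f_congr
    intro i _ j _ hij
    unfold toT
    rcases lt_or_gt_of_ne hij with h | h
    · simp [h, ht]
    · have h' : ¬ i < j := not_lt.mpr h.le
      have := (hT i j hij).2
      simp only [h, h', dif_pos, dif_neg, not_false_eq_true, ht]
      linarith
  have h2 := multiaffine (fun s : Match n → ℝ => f (toT s) univ x)
    (fun s e a => by
      have hne : e.1.1 ≠ e.1.2 := ne_of_lt e.2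
      simp only [toT_update]
      exact f_affine _ hne a univ x) t
  rw [h1, h2]
  unfold ruleValue
  apply Finset.sum_congr rfl
  intro o _
  congr 1
  · apply Finset.prod_congr rfl
    intro e _
    have := (hT e.1.1 e.1.2 (ne_of_lt e.2)).2
    split_ifs
    · rfl
    · simp only [ht]; linarith
  · rw [kingWin_eq]
    apply f_congr
    intro i _ j _ hij
    unfold Tof toT Beats
    rcases lt_or_gt_of_ne hij with h | h
    · have h' : ¬ j < i := not_lt.mpr h.le
      simp [h, h']
    · have h' : ¬ i < j := not_lt.mpr h.le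
      by_cases ho : o ⟨(j, i), h⟩ = true
      · simp [h, h', ho]
      · rw [Bool.not_eq_true] at ho
        simp [h, h', ho]

/-! ### The theorem -/

theorem gain_eq {n : ℕ} {T T' : Fin n → Fin n → ℝ} {u v : Fin n} (huv : u ≠ v)
    (hT : IsProb T) (hT' : IsProb T')
    (hadj : ∀ i j, i ≠ j → ¬ (i = u ∧ j = v) → ¬ (i = v ∧ j = u) → T' i j = T i j) :
    ruleValue T' u + ruleValue T' v - ruleValue T u - ruleValue T v =
      (T' u v - T u v) * D T u v univ := by
  rw [ruleValue_eq hT', ruleValue_eq hT', ruleValue_eq hT, ruleValue_eq hT]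
  have e1 : ∀ x, f T' univ x = f (setPair T u v (T' u v)) univ x := by
    intro x
    apply f_congr
    intro i _ j _ hij
    by_cases h1 : i = u ∧ j = v
    · obtain ⟨rfl, rfl⟩ := h1; rw [setPair_ab]
    by_cases h2 : i = v ∧ j = u
    · obtain ⟨rfl, rfl⟩ := h2
      rw [setPair_ba huv]; have := (hT' i j hij).2; linarith
    · simp only [setPair, h1, h2, if_false]
      exact hadj i j hij h1 h2
  have e2 : ∀ x, f T univ x = f (setPair T u v (T u v)) univ x := by
    intro x
    apply f_congr
    intro i _ j _ hij
    by_cases h1 : i = u ∧ j = v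
    · obtain ⟨rfl, rfl⟩ := h1; rw [setPair_ab]
    by_cases h2 : i = v ∧ j = u
    · obtain ⟨rfl, rfl⟩ := h2
      rw [setPair_ba huv]; have := (hT i j hij).2; linarith
    · simp only [setPair, h1, h2, if_false]
  rw [e1, e1, e2, e2, f_affine T huv (T' u v), f_affine T huv (T' u v), f_affine T huv (T u v),
    f_affine T huv (T u v)]
  unfold D F
  ring

theorem univ_eq {n : ℕ} {u v : Fin n} (huv : u ≠ v) :
    (univ : Finset (Fin n)) = insert u (insert v ((univ.erase u).erase v)) := by
  ext x
  simp only [Finset.mem_univ, Finset.mem_insert, Finset.mem_erase, true_iff]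
  tauto

theorem upper {ε : ℝ} (h0 : 0 ≤ ε) (h1 : ε ≤ 1 / 2) {γ : ℝ} (hγ : γ ∈ gains ε) :
    γ ≤ ε / 3 + 2 * ε ^ 2 / 3 := by
  obtain ⟨n, -, T, T', u, v, huv, hT, hb, hT', hadj, rfl⟩ := hγ
  rw [gain_eq huv hT hT' hadj]
  have hD := D_abs_le (al := 1 / 2 + ε) (be := 1 / 2 - ε) (T := T) (by ring) (by linarith)
    (by linarith) hb (fun i j hij => (hT i j hij).2) huv (W := (univ.erase u).erase v)
    (by simp) (by simp)
  rw [← univ_eq huv] at hD
  have h2 : |T' u v - T u v| ≤ 1 / 2 + ε := by
    have a1 := (hT' u v huv).1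
    have a2 : T' u v ≤ 1 := by
      have := (hT' u v huv).2; have := (hT' v u huv.symm).1; linarith
    have a3 := hb u v huv
    exact abs_le.mpr ⟨by linarith, by linarith⟩
  calc (T' u v - T u v) * D T u v univ ≤ |(T' u v - T u v) * D T u v univ| := le_abs_self _
    _ = |T' u v - T u v| * |D T u v univ| := abs_mul _ _
    _ ≤ (1 / 2 + ε) * ((1 / 2 + ε - (1 / 2 - ε)) / 3) :=
        mul_le_mul h2 hD (abs_nonneg _) (by linarith)
    _ = ε / 3 + 2 * ε ^ 2 / 3 := by ring

/-- the extremal tournament on three teams -/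
noncomputable def T3 (ε : ℝ) : Fin 3 → Fin 3 → ℝ :=
  ![![1 / 2, 1 / 2 - ε, 1 / 2 + ε], ![1 / 2 + ε, 1 / 2, 1 / 2 - ε],
    ![1 / 2 - ε, 1 / 2 + ε, 1 / 2]]

theorem lower {ε : ℝ} (h0 : 0 ≤ ε) (h1 : ε ≤ 1 / 2) :
    ε / 3 + 2 * ε ^ 2 / 3 ∈ gains ε := by
  have hb : ∀ i j : Fin 3, i ≠ j → 1 / 2 - ε ≤ T3 ε i j ∧ T3 ε i j ≤ 1 / 2 + ε := by
    intro i j hij
    fin_cases i <;> fin_cases j <;> simp [T3] <;> linarith
  have hc : ∀ i j : Fin 3, i ≠ j → T3 ε i j + T3 ε j i = 1 := by
    intro i j hij
    fin_cases i <;> fin_cases j <;> first | (exact absurd rfl hij) | (simp [T3]; try ring)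
  have hT : IsProb (T3 ε) := fun i j hij => ⟨by linarith [(hb i j hij).1], hc i j hij⟩
  have h01 : (0 : Fin 3) ≠ 1 := by decide
  have hT' : IsProb (setPair (T3 ε) 0 1 1) := by
    intro i j hij
    refine ⟨?_, Comp_setPair hc h01 1 i j hij⟩
    unfold setPair
    split_ifs
    · norm_num
    · norm_num
    · exact (hT i j hij).1
  refine ⟨3, by norm_num, T3 ε, setPair (T3 ε) 0 1 1, 0, 1, h01, hT, hb, hT', ?_, ?_⟩
  · intro i j _ h2 h3
    simp only [setPair, h2, h3, if_false]
  · rw [gain_eq h01 hT hT' (by
      intro i j _ h2 h3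
      simp only [setPair, h2, h3, if_false]), setPair_ab]
    have h3 := D_triple (T := T3 ε) hc (u := 0) (v := 1) (w := 2) h01 (by decide) (by decide)
    have h4 := D_pair (al := 1 / 2 + ε) (be := 1 / 2 - ε) (T := T3 ε) (by ring) (by linarith)
      (by linarith) hb hc h01
    rw [h4] at h3
    have hu : (univ : Finset (Fin 3)) = insert 0 (insert 1 {2}) := by decide
    rw [hu]
    have e1 : T3 ε 0 2 = 1 / 2 + ε := by simp [T3]
    have e2 : T3 ε 1 2 = 1 / 2 - ε := by simp [T3]
    have e3 : T3 ε 0 1 = 1 / 2 - ε := by simp [T3]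
    rw [e1, e2] at h3
    rw [e3]
    have h5 : D (T3 ε) 0 1 (insert 0 (insert 1 {2})) = 2 * ε / 3 := by linarith
    rw [h5]; ring

/-- **MP_4400a6_co, Q1: the formula holds.**  For every `ε ∈ [0, 1/2]`, the supremum of the gains
in Randomized King of the Hill over the class of probabilistic tournaments with match probabilities
in `[1/2 - ε, 1/2 + ε]` equals `ε/3 + 2ε²/3` (and is attained). -/
theorem result (ε : ℝ) (h0 : 0 ≤ ε) (h1 : ε ≤ 1 / 2) :
    sSup (gains ε) = ε / 3 + 2 * ε ^ 2 / 3 ∧
      IsGreatest (gains ε) (ε / 3 + 2 * ε ^ 2 / 3) := by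
  have h : IsGreatest (gains ε) (ε / 3 + 2 * ε ^ 2 / 3) :=
    ⟨lower h0 h1, fun _ hγ => upper h0 h1 hγ⟩
  exact ⟨h.csSup_eq, h⟩

end Pool.Agent.Results.MP_4400a6_co.KingOfTheHill
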